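import Mathlib

/-!
# The number fields are countable up to isomorphism (helper32)
-/

set_option autoImplicit false
set_option linter.all false

open NumberField IntermediateField

namespace Pool.Agent.P8H32.HQ

/-- the algebraic numbers -/
abbrev QB : Type := {x : ℂ // IsAlgebraic ℚ x}

instance countable_QB : Countable QB := (Algebraic.countable ℚ ℂ).to_subtype

/-- the field generated by an algebraic number -/
abbrev Fd (α : QB) : Type := ℚ⟮(α : ℂ)⟯

instance numberField_adj (α : QB) : NumberField (Fd α) where
  to_charZero := inferInstance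
  to_finiteDimensional := IntermediateField.adjoin.finiteDimensional α.2.isIntegral

instance countable_Fd (α : QB) : Countable (Fd α) :=
  (Module.finBasis ℚ (Fd α)).equivFun.injective.countable

instance countable_O (α : QB) : Countable (𝓞 (Fd α)) :=
  Function.Injective.countable (f := fun x : 𝓞 (Fd α) => (x : Fd α)) fun x y h =>
    RingOfIntegers.ext h

theorem exists_model (L : Type) [Field L] [NumberField L] :
    ∃ α : QB, Nonempty (L ≃+* Fd α) := by
  obtain ⟨θ, hθ⟩ := Field.exists_primitive_element ℚ L
  let σ : L →ₐ[ℚ] ℂ := IsAlgClosed.lift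
  have hint : IsAlgebraic ℚ (σ θ) := (Algebra.IsAlgebraic.isAlgebraic θ).algHom σ
  refine ⟨⟨σ θ, hint⟩, ?_⟩
  have h1 : ℚ⟮σ θ⟯ = σ.fieldRange := by
    have h2 := IntermediateField.adjoin_map ℚ {θ} σ
    rw [hθ, Set.image_singleton] at h2
    rw [← h2, AlgHom.fieldRange_eq_map]
  change Nonempty (L ≃+* ℚ⟮σ θ⟯)
  rw [h1]
  exact ⟨(AlgEquiv.ofInjectiveField σ).toRingEquiv⟩

end Pool.Agent.P8H32.HQ
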