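import Mathlib

/-!
# Affine families of full rank modulo prime numbers (helper32)
-/

set_option autoImplicit false
set_option linter.all false

open NumberField Polynomial
open scoped Classical

namespace Pool.Agent.P8H32.HQ

/-- the affine map -/
def aff {R : Type} [CommRing R] {σ ι : Type} [Fintype ι] {F : Type} [CommRing F] (φ : R →+* F)
    (A : σ → ι → R) (B : σ → R) (c : ι → F) : σ → F :=
  fun j => ∑ l, φ (A j l) * c l + φ (B j)

/-- the rows are linearly independent over the field of fractions -/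
def FullRank {L : Type} [Field L] {σ ι : Type} (A : σ → ι → 𝓞 L) : Prop :=
  LinearIndependent L (fun (j : σ) (l : ι) => algebraMap (𝓞 L) L (A j l))

section
variable {L : Type} [Field L] [NumberField L] {σ ι : Type} [Fintype ι] [Fintype σ]

theorem exists_inv {A : σ → ι → 𝓞 L} (hA : FullRank A) :
    ∃ (C : ι → σ → 𝓞 L) (d : 𝓞 L), d ≠ 0 ∧ ∀ j k, ∑ l, A j l * C l k = if j = k then d else 0 := by
  classical
  have hinj : Function.Injective (Fintype.linearCombination L
      (fun (j : σ) (l : ι) => algebraMap (𝓞 L) L (A j l))) :=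
    linearIndependent_iff_injective_fintypeLinearCombination.1 hA
  obtain ⟨g, hg⟩ := LinearMap.exists_leftInverse_of_injective _ (LinearMap.ker_eq_bot.2 hinj)
  have hg1 : ∀ j, g (fun l => algebraMap (𝓞 L) L (A j l)) = Pi.single j 1 := by
    intro j
    have h1 := LinearMap.congr_fun hg (Pi.single j 1)
    rw [LinearMap.comp_apply, Fintype.linearCombination_apply_single, one_smul] at h1
    exact h1
  obtain ⟨b, hb⟩ := IsLocalization.exist_integer_multiples_of_finite (nonZeroDivisors (𝓞 L))
    (fun x : ι × σ => g (Pi.single x.1 1) x.2)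
  choose C hC using hb
  refine ⟨fun l k => C (l, k), b, nonZeroDivisors.ne_zero b.2, fun j k => ?_⟩
  apply FaithfulSMul.algebraMap_injective (𝓞 L) L
  have h2 := hg1 j
  have h3 : g (fun l => algebraMap (𝓞 L) L (A j l)) =
      ∑ l, algebraMap (𝓞 L) L (A j l) • g (Pi.single l 1) := by
    conv_lhs => rw [show (fun l => algebraMap (𝓞 L) L (A j l)) =
      ∑ l, algebraMap (𝓞 L) L (A j l) • (Pi.single l (1 : L) : ι → L) from by
        funext l
        rw [Finset.sum_apply, Finset.sum_eq_single l]
        · rw [Pi.smul_apply, Pi.single_eq_same, smul_eq_mul, mul_one]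
        · intro b _ hb
          rw [Pi.smul_apply, Pi.single_eq_of_ne (Ne.symm hb), smul_zero]
        · intro h
          exact absurd (Finset.mem_univ l) h]
    rw [map_sum]
    exact Finset.sum_congr rfl fun l _ => map_smul g _ _
  rw [h3] at h2
  have h4 := congrFun h2 k
  rw [Finset.sum_apply] at h4
  rw [map_sum]
  have h5 : ∀ l, algebraMap (𝓞 L) L (A j l * C (l, k)) =
      algebraMap (𝓞 L) L b * (algebraMap (𝓞 L) L (A j l) * g (Pi.single l 1) k) := by
    intro l
    rw [map_mul, hC (l, k), Algebra.smul_def]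
    ring
  rw [Finset.sum_congr rfl fun l _ => h5 l, ← Finset.mul_sum]
  have h6 : ∑ l, algebraMap (𝓞 L) L (A j l) * g (Pi.single l 1) k = if j = k then 1 else 0 := by
    have h7 : (Pi.single j (1 : L) : σ → L) k = if j = k then 1 else 0 := by
      rw [Pi.single_apply]
      exact if_congr eq_comm rfl rfl
    rw [← h7, ← h4]
    exact Finset.sum_congr rfl fun l _ => rfl
  rw [h6]
  split_ifs <;> simp

/-- a nonzero integer of the field is not zero modulo large primes -/
theorem large_prime {x : 𝓞 L} (hx : x ≠ 0) : ∃ D : ℕ, ∀ p : ℕ, p.Prime → D < p →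
    ∀ φ : 𝓞 L →+* ZMod p, φ x ≠ 0 := by
  have h0 : Ideal.absNorm (Ideal.span {x}) ≠ 0 := by
    rw [Ne, Ideal.absNorm_eq_zero_iff, Ideal.span_singleton_eq_bot]
    exact hx
  refine ⟨Ideal.absNorm (Ideal.span {x}), fun p hp hlt φ hφ => ?_⟩
  have h1 : ((Ideal.absNorm (Ideal.span {x}) : ℕ) : 𝓞 L) ∈ Ideal.span {x} := Ideal.absNorm_mem _
  obtain ⟨y, hy⟩ := Ideal.mem_span_singleton'.1 h1
  have h2 := congrArg φ hy
  rw [map_mul, hφ, mul_zero, map_natCast] at h2
  have h3 : p ∣ Ideal.absNorm (Ideal.span {x}) := (ZMod.natCast_eq_zero_iff _ _).1 h2.symm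
  exact absurd (Nat.le_of_dvd (Nat.pos_of_ne_zero h0) h3) (not_le.2 hlt)

end

section
variable {F : Type} [Field F] [Finite F] {σ ι : Type} [Fintype ι] [Fintype σ]

/-- The number of the vectors whose image is in a given set. -/
theorem card_aff {R : Type} [CommRing R] (φ : R →+* F) (A : σ → ι → R) (B : σ → R)
    (C : ι → σ → R) (d : R) (hd : φ d ≠ 0)
    (hC : ∀ j k, ∑ l, A j l * C l k = if j = k then d else 0) (S : Set (σ → F)) :
    S.ncard * Nat.card F ^ Fintype.card ι ≤
      {ρ : ι → F | aff φ A B ρ ∈ S}.ncard * Nat.card F ^ Fintype.card σ := by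
  classical
  haveI := Fintype.ofFinite F
  obtain ⟨s, hs⟩ : ∃ s : (σ → F) → (ι → F), s = fun z l => ∑ k, φ (C l k) * ((φ d)⁻¹ * z k) :=
    ⟨_, rfl⟩
  have hfs : ∀ (ρ : ι → F) (z : σ → F), aff φ A B (ρ + s z) = aff φ A B ρ + z := by
    intro ρ z
    funext j
    have h1 : ∑ l, φ (A j l) * s z l = z j := by
      calc ∑ l, φ (A j l) * s z l = ∑ l, ∑ k, φ (A j l * C l k) * ((φ d)⁻¹ * z k) := by
            refine Finset.sum_congr rfl fun l _ => ?_
            rw [hs, Finset.mul_sum]
            refine Finset.sum_congr rfl fun k _ => ?_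
            rw [map_mul]
            ring
        _ = ∑ k, φ (∑ l, A j l * C l k) * ((φ d)⁻¹ * z k) := by
            rw [Finset.sum_comm]
            refine Finset.sum_congr rfl fun k _ => ?_
            rw [map_sum, Finset.sum_mul]
        _ = z j := by
            rw [Finset.sum_eq_single j]
            · rw [hC, if_pos rfl, ← mul_assoc, mul_inv_cancel₀ hd, one_mul]
            · intro k _ hk
              rw [hC, if_neg (Ne.symm hk), map_zero, zero_mul]
            · intro h
              exact absurd (Finset.mem_univ j) h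
    simp only [aff, Pi.add_apply, mul_add, Finset.sum_add_distrib]
    rw [h1]
    ring
  have h1 : (S ×ˢ (Set.univ : Set (ι → F))).ncard ≤
      ({ρ : ι → F | aff φ A B ρ ∈ S} ×ˢ (Set.univ : Set (σ → F))).ncard := by
    refine Set.ncard_le_ncard_of_injOn (fun x => (x.2 + s (x.1 - aff φ A B x.2), aff φ A B x.2))
      ?_ ?_ (Set.toFinite _)
    · rintro ⟨z, ρ⟩ ⟨hz, -⟩
      refine ⟨?_, Set.mem_univ _⟩
      change aff φ A B _ ∈ S
      rw [hfs, add_sub_cancel]
      exact hz
    · rintro ⟨z, ρ⟩ - ⟨z', ρ'⟩ - h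
      simp only [Prod.mk.injEq] at h
      obtain ⟨ha, hb⟩ := h
      have e1 : z = z' := by
        have h2 := congrArg (aff φ A B) ha
        rw [hfs, hfs, add_sub_cancel, add_sub_cancel] at h2
        exact h2
      subst e1
      rw [hb] at ha
      exact Prod.ext rfl (add_right_cancel ha)
  rw [Set.ncard_prod, Set.ncard_prod, Set.ncard_univ, Set.ncard_univ, Nat.card_fun, Nat.card_fun,
    Nat.card_eq_fintype_card (α := ι), Nat.card_eq_fintype_card (α := σ)] at h1
  exact h1

end

end Pool.Agent.P8H32.HQ
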