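import Pool.Agent.P8H32.HQ.Null
import Pool.Agent.P8H32.HQ.Cnt
import Pool.Agent.N197.Htj.Den
import Pool.Agent.N18.KM.Base

/-!
# From the affine families to the Galois data (helper32)
-/

set_option autoImplicit false
set_option linter.all false

open NumberField Polynomial Filter Topology
open scoped Classical

namespace Pool.Agent.P8H32.HQ

open Pool.Agent.N24.RW Pool.Agent.N24.KM
open Pool.Agent.N197.Htj (mP Mv Tup Sg TT Dat)
open Pool.Agent.X243.Gen (Zc Zg)

/-- the conditions -/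
abbrev Cond (m : ℕ) (R : Type) : Type := (Fin m × Fin 3) ⊕ ((Fin m × Fin m) ⊕ (Fin m × R))

/-- the types of factorisation modulo a prime for each of the conditions -/
noncomputable def typ {R : Type} [CommRing R] {m : ℕ} (s : Cond m R) (p : ℕ) (φ : R →+* ZMod p)
    (i : Fin m) : Option (Fin 3) :=
  match s with
  | Sum.inl (i₀, t) => if i = i₀ then some t else none
  | Sum.inr (Sum.inl (i₀, j₀)) => if i = i₀ then some 0 else if i = j₀ then some 2 else none
  | Sum.inr (Sum.inr (i₀, u)) => if i = i₀ then (if IsSquare (φ u) then some 2 else some 0) else none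

/-- the condition of the list -/
def toCond {R : Type} {m : ℕ} {U : Finset R} (s : Sg (Fin m) U) : Cond m R :=
  match s with
  | Sum.inl x => Sum.inl x
  | Sum.inr (Sum.inl x) => Sum.inr (Sum.inl x)
  | Sum.inr (Sum.inr (i₀, u)) => Sum.inr (Sum.inr (i₀, u.1))

/-- transport of a condition -/
def mapCond {R R' : Type} {m : ℕ} (e : R → R') (s : Cond m R) : Cond m R' :=
  match s with
  | Sum.inl x => Sum.inl x
  | Sum.inr (Sum.inl x) => Sum.inr (Sum.inl x)
  | Sum.inr (Sum.inr (i₀, u)) => Sum.inr (Sum.inr (i₀, e u))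

theorem typ_map {R R' : Type} [CommRing R] [CommRing R'] {m : ℕ} (e : R →+* R') (s : Cond m R)
    (p : ℕ) (φ : R' →+* ZMod p) (i : Fin m) : typ (mapCond e s) p φ i = typ s p (φ.comp e) i := by
  rcases s with x | x | x
  · rfl
  · rfl
  · rfl

section
variable {ι : Type} [Fintype ι] {m : ℕ}

/-- the bad vectors do not depend on the model of the field -/
theorem bad_map {R R' : Type} [CommRing R] [CommRing R'] (e : R →+* R') (n : Fin m → ℕ)
    (A : (Σ i, Fin (n i)) → ι → R) (B : (Σ i, Fin (n i)) → R) (c₀ : R) (D : ℕ) (s : Cond m R)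
    {c : ι → ℤ} (h : c ∉ Bad n (fun j l => e (A j l)) (fun j => e (B j)) (e c₀) D
      (typ (mapCond e s))) : c ∉ Bad n A B c₀ D (typ s) := by
  intro hc
  apply h
  rintro ⟨p, hp, hD, φ, h1, h2⟩
  refine hc ⟨p, hp, hD, φ.comp e, h1, ?_⟩
  intro i t hi
  rw [← typ_map] at hi
  exact h2 i t hi

/-- the vector of the coefficients -/
def vec {R : Type} [CommRing R] {σ : Type} (A : σ → ι → R) (B : σ → R) (c : ι → ℤ) : σ → R :=
  fun j => ∑ l, A j l * (c l : R) + B j

/-- the conditions hold for the vector if it is not bad -/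
theorem dat_of {R : Type} [CommRing R] [IsDomain R] (n : Fin m → ℕ) (U : Finset R)
    (A : (Σ i, Fin (n i)) → ι → R) (B : (Σ i, Fin (n i)) → R) {c : ι → ℤ}
    (h : ∀ s : Sg (Fin m) U, c ∉ Bad n A B (∏ u ∈ U, u) (2 * (∑ i, n i) + 2) (typ (toCond s))) :
    Dat n U (vec A B c) := by
  intro s
  have h1 := h s
  unfold Bad at h1
  rw [Set.mem_setOf_eq, not_not] at h1
  obtain ⟨p, hp, hlt, φ, hφ0, hT⟩ := h1
  have : Fact p.Prime := ⟨hp⟩
  have hsurj : Function.Surjective φ := ZMod.ringHom_surjective φ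
  let I : Ideal R := RingHom.ker φ
  have hI : I.IsMaximal := RingHom.ker_isMaximal_of_surjective φ hsurj
  let e : R ⧸ I ≃+* ZMod p := RingHom.quotientKerEquivOfSurjective hsurj
  have hfin : Finite (R ⧸ I) := Finite.of_equiv _ e.symm.toEquiv
  have hcard : Nat.card (R ⧸ I) = p := by
    rw [Nat.card_congr e.toEquiv, Nat.card_zmod]
  have he : ∀ x : R, e.symm (φ x) = Ideal.Quotient.mk I x := by
    intro x
    rw [RingEquiv.symm_apply_eq]
    rfl
  refine ⟨I, ⟨⟨hI, hfin, ?_, ?_⟩, hφ0⟩, ?_⟩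
  · rw [hcard]
    exact hlt.le
  · intro h2
    have h3 : φ 2 = 0 := h2
    rw [map_ofNat] at h3
    have h4 : ((2 : ℕ) : ZMod p) = 0 := by exact_mod_cast h3
    rw [ZMod.natCast_eq_zero_iff] at h4
    have h5 := Nat.le_of_dvd (by norm_num) h4
    omega
  · have h6 := tup_map e.symm hT
    have h7 : (fun j => e.symm (aff φ A B (fun l => (c l : ZMod p)) j)) =
        fun j => Ideal.Quotient.mk I (vec A B c j) := by
      funext j
      rw [← he]
      congr 1
      unfold aff vec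
      rw [map_add, map_sum]
      congr 1
      refine Finset.sum_congr rfl fun l _ => ?_
      rw [map_mul, map_intCast]
    rw [h7] at h6
    have hsq : ∀ u : R, IsSquare (Ideal.Quotient.mk I u) ↔ IsSquare (φ u) := by
      intro u
      rw [← he]
      constructor
      · rintro ⟨x, hx⟩
        refine ⟨e x, ?_⟩
        rw [← map_mul, ← hx, e.apply_symm_apply]
      · rintro ⟨x, hx⟩
        exact ⟨e.symm x, by rw [hx, map_mul]⟩
    have hTT : ∀ i, TT s I i = typ (toCond s) p φ i := by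
      intro i
      rcases s with ⟨i₀, t⟩ | ⟨i₀, j₀⟩ | ⟨i₀, u⟩
      · simp only [TT, toCond, typ]
        split_ifs <;> rfl
      · simp only [TT, toCond, typ]
        split_ifs <;> rfl
      · simp only [TT, toCond, typ, hsq]
        split_ifs <;> rfl
    intro i t hi
    rw [hTT] at hi
    exact h6 i t hi

/-- the data -/
def Dt (ι : Type) : Type := Σ α : QB, Σ m : ℕ, Σ n : Fin m → ℕ,
  ((Σ i, Fin (n i)) → ι → 𝓞 (Fd α)) × ((Σ i, Fin (n i)) → 𝓞 (Fd α)) × 𝓞 (Fd α) ×
    Cond m (𝓞 (Fd α))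

instance : Countable (Dt ι) := by
  unfold Dt
  infer_instance

/-- the exceptional set of a datum -/
def BadD (x : Dt ι) : Set (ι → ℤ) :=
  {c | (∀ i, 3 ≤ x.2.2.1 i) ∧ FullRank x.2.2.2.1 ∧ x.2.2.2.2.2.1 ≠ 0 ∧
    c ∈ Bad x.2.2.1 x.2.2.2.1 x.2.2.2.2.1 x.2.2.2.2.2.1 (2 * (∑ i, x.2.2.1 i) + 2)
      (typ x.2.2.2.2.2.2)}

theorem badD_null (x : Dt ι) : ProNull (BadD x) := by
  by_cases h : (∀ i, 3 ≤ x.2.2.1 i) ∧ FullRank x.2.2.2.1 ∧ x.2.2.2.2.2.1 ≠ 0
  · refine Clo.mono ?_ (bad_null x.2.2.1 h.1 h.2.1 x.2.2.2.2.1 h.2.2 (2 * (∑ i, x.2.2.1 i) + 2)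
      (typ x.2.2.2.2.2.2))
    rintro c ⟨-, -, -, hc⟩
    exact hc
  · refine Clo.mono (B := {c | MvPolynomial.eval c (1 : MvPolynomial ι ℤ) = 0}) ?_
      (Clo.poly _ one_ne_zero)
    rintro c ⟨h1, h2, h3, -⟩
    exact absurd ⟨h1, h2, h3⟩ h

/-- **One exceptional set**: outside of it all the conditions hold, for all number fields and
all affine families of full rank. -/
theorem master {c : ℕ → ι → ℤ} {E : Set ℕ}
    (hall : ∀ x : Dt ι, {t : ℕ | t ∉ E ∧ c t ∈ BadD x}.Finite)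
    (L : Type) [Field L] [NumberField L] (m : ℕ) (n : Fin m → ℕ)
    (A : (Σ i, Fin (n i)) → ι → 𝓞 L) (B : (Σ i, Fin (n i)) → 𝓞 L) (h3 : ∀ i, 3 ≤ n i)
    (hA : FullRank A) (U : Finset (𝓞 L)) (hU : ∀ u ∈ U, u ≠ 0) :
    {t : ℕ | t ∉ E ∧ ¬ Dat n U (vec A B (c t))}.Finite := by
  obtain ⟨α, ⟨e₀⟩⟩ := exists_model L
  let e : 𝓞 L ≃+* 𝓞 (Fd α) := RingOfIntegers.mapRingEquiv e₀
  have he : ∀ x : 𝓞 L, algebraMap (𝓞 (Fd α)) (Fd α) (e x) = e₀ (algebraMap (𝓞 L) L x) := fun x => rfl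
  have hA' : FullRank (fun (j : Σ i, Fin (n i)) l => e (A j l)) := by
    unfold FullRank at hA ⊢
    rw [Fintype.linearIndependent_iff] at hA ⊢
    intro g hg j
    have h1 := hA (fun j => e₀.symm (g j)) ?_ j
    · have h2 := congrArg e₀ h1
      rw [e₀.apply_symm_apply, map_zero] at h2
      exact h2
    · funext l
      have h2 := congrFun hg l
      rw [Finset.sum_apply] at h2 ⊢
      apply e₀.injective
      rw [map_sum, Pi.zero_apply, map_zero]
      rw [Pi.zero_apply] at h2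
      rw [← h2]
      refine Finset.sum_congr rfl fun j _ => ?_
      rw [Pi.smul_apply, Pi.smul_apply, smul_eq_mul, smul_eq_mul, map_mul, e₀.apply_symm_apply, he]
  have hc₀ : e (∏ u ∈ U, u) ≠ 0 :=
    (map_ne_zero_iff e e.injective).2 (Finset.prod_ne_zero_iff.2 hU)
  have hfin : (⋃ s : Sg (Fin m) U, {t : ℕ | t ∉ E ∧ c t ∈ BadD
      (⟨α, m, n, fun j l => e (A j l), fun j => e (B j), e (∏ u ∈ U, u),
        mapCond e (toCond s)⟩ : Dt ι)}).Finite := Set.finite_iUnion fun s => hall _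
  refine hfin.subset ?_
  rintro t ⟨ht, hno⟩
  by_contra hcon
  apply hno
  apply dat_of
  intro s
  apply bad_map (e : 𝓞 L →+* 𝓞 (Fd α))
  intro hb
  apply hcon
  rw [Set.mem_iUnion]
  exact ⟨s, ht, h3, hA', hc₀, hb⟩

end

end Pool.Agent.P8H32.HQ
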