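import Pool.Agent.P8H32.HQ.Lin
import Pool.Agent.N197.Htj.Cnt
import Pool.Agent.N24.RW.Crit
import Pool.Agent.N24.RW.Clo
import Pool.Agent.Helper932.SplitPrimes

/-!
# Affine families of tuples of polynomials with a prescribed type of factorisation modulo a prime: the
# exceptional vectors are pronull (helper32)
-/

set_option autoImplicit false
set_option linter.all false

open NumberField Polynomial
open scoped Classical

namespace Pool.Agent.P8H32.HQ

open Pool.Agent.N24.RW
open Pool.Agent.N197.Htj (mP Mv Tup Tup_card mv)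
open Pool.Agent.X243.Sol (DD D3_pos Ev I3 E3)

lemma not_summable_w (L : Type) [Field L] [NumberField L] {δ : ℝ} (hδ : 0 < δ) {w : ℕ → ℝ}
    (hw0 : ∀ p, 0 ≤ w p) (hw : ∀ p, p.Prime → Nonempty (𝓞 L →+* ZMod p) → δ * (1 / (p : ℝ)) ≤ w p) :
    ¬ Summable (fun p : ℕ => if p.Prime then w p else 0) := by
  intro hs
  apply Pool.Agent.Helper932.not_summable_split (K := L)
  have h1 := (hs.mul_left δ⁻¹).comp_injective
    (Subtype.val_injective (p := fun p : ℕ => p.Prime ∧ Nonempty (𝓞 L →+* ZMod p)))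
  refine Summable.of_nonneg_of_le (fun p => by positivity) (fun p => ?_) h1
  obtain ⟨p, hp, hne⟩ := p
  simp only [Function.comp_apply]
  rw [if_pos hp]
  have h2 := hw p hp hne
  have h3 : δ⁻¹ * (δ * (1 / (p : ℝ))) ≤ δ⁻¹ * w p := mul_le_mul_of_nonneg_left h2 (by positivity)
  rwa [← mul_assoc, inv_mul_cancel₀ hδ.ne', one_mul] at h3

section
variable {L : Type} [Field L] [NumberField L] {ι : Type} [Fintype ι] {m : ℕ}

/-- The vectors for which no prime gives the prescribed type of factorisation. -/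
def Bad {R : Type} [CommRing R] (n : Fin m → ℕ) (A : (Σ i, Fin (n i)) → ι → R)
    (B : (Σ i, Fin (n i)) → R) (c₀ : R) (D : ℕ) (T : ∀ p : ℕ, (R →+* ZMod p) → Fin m → Option (Fin 3)) :
    Set (ι → ℤ) :=
  {c | ¬ ∃ p : ℕ, p.Prime ∧ D < p ∧ ∃ φ : R →+* ZMod p, φ c₀ ≠ 0 ∧
    aff φ A B (fun l => (c l : ZMod p)) ∈ Tup (ZMod p) n (T p φ)}

theorem bad_null (n : Fin m → ℕ) (h3 : ∀ i, 3 ≤ n i) {A : (Σ i, Fin (n i)) → ι → 𝓞 L}
    (hA : FullRank A) (B : (Σ i, Fin (n i)) → 𝓞 L) {c₀ : 𝓞 L} (hc₀ : c₀ ≠ 0) (D : ℕ)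
    (T : ∀ p : ℕ, (𝓞 L →+* ZMod p) → Fin m → Option (Fin 3)) : ProNull (Bad n A B c₀ D T) := by
  obtain ⟨C, d, hd, hC⟩ := exists_inv hA
  obtain ⟨D₁, hD₁⟩ := large_prime (mul_ne_zero hd hc₀)
  have hDD : 0 < ∏ i, DD (n i) := Finset.prod_pos fun i _ =>
    Nat.mul_pos (Nat.mul_pos (by norm_num) (by have := h3 i; omega)) (D3_pos _)
  have hDD' : (0 : ℝ) < ((∏ i, DD (n i) : ℕ) : ℝ) := by exact_mod_cast hDD
  have h1 := t_CRIT ι (fun p => p) (fun p hp => hp.pos)
    (fun p p' hp hp' hne => (Nat.coprime_primes hp hp').2 hne)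
    (fun p => {ρ : ι → ZMod p | ∃ φ : 𝓞 L →+* ZMod p, φ c₀ ≠ 0 ∧
      aff φ A B ρ ∈ Tup (ZMod p) n (T p φ)}) (max D (max D₁ (2 * (∑ i, n i) + 2)))
    (fun p => if Nonempty (𝓞 L →+* ZMod p) then 1 / ((∏ i, DD (n i) : ℕ) : ℝ) else 0)
    (fun p => by split_ifs <;> positivity)
    (not_summable_w L (δ := 1 / ((∏ i, DD (n i) : ℕ) : ℝ)) (by positivity)
      (fun p => by split_ifs <;> positivity)
      (fun p hp hne => by
        rw [if_pos hne]
        refine mul_le_of_le_one_right (by positivity) ?_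
        rw [div_le_one (by exact_mod_cast hp.pos)]
        exact_mod_cast hp.one_lt.le))
    (fun p hp hlt => by
      have : Fact p.Prime := ⟨hp⟩
      by_cases hne : Nonempty (𝓞 L →+* ZMod p)
      · rw [if_pos hne]
        obtain ⟨φ⟩ := hne
        have hp1 : D₁ < p := by omega
        have hp2 : 2 * (∑ i, n i) + 2 < p := by omega
        have hφ := hD₁ p hp hp1 φ
        rw [map_mul] at hφ
        have hq : ∀ i, 2 * n i + 2 ≤ Nat.card (ZMod p) := by
          intro i
          have h4 : n i ≤ ∑ i, n i :=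
            Finset.single_le_sum (fun j _ => Nat.zero_le _) (Finset.mem_univ i)
          rw [Nat.card_zmod]
          omega
        have h5 := Tup_card (F := ZMod p) n h3 hq (T p φ)
        have h6 := card_aff (F := ZMod p) φ A B C d (left_ne_zero_of_mul hφ) hC
          (Tup (ZMod p) n (T p φ))
        have h7 : {ρ : ι → ZMod p | aff φ A B ρ ∈ Tup (ZMod p) n (T p φ)}.ncard ≤
            {ρ : ι → ZMod p | ∃ φ : 𝓞 L →+* ZMod p, φ c₀ ≠ 0 ∧
              aff φ A B ρ ∈ Tup (ZMod p) n (T p φ)}.ncard :=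
          Set.ncard_le_ncard (fun ρ hρ => ⟨φ, right_ne_zero_of_mul hφ, hρ⟩) (Set.toFinite _)
        rw [Nat.card_zmod] at h5 h6
        have h8 : p ^ Fintype.card ι ≤ (∏ i, DD (n i)) *
            {ρ : ι → ZMod p | ∃ φ : 𝓞 L →+* ZMod p, φ c₀ ≠ 0 ∧
              aff φ A B ρ ∈ Tup (ZMod p) n (T p φ)}.ncard := by
          have hpp : 0 < p ^ Fintype.card (Σ i, Fin (n i)) := pow_pos hp.pos _
          refine Nat.le_of_mul_le_mul_right (c := p ^ Fintype.card (Σ i, Fin (n i))) ?_ hpp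
          calc p ^ Fintype.card ι * p ^ Fintype.card (Σ i, Fin (n i))
              ≤ p ^ Fintype.card ι * ((∏ i, DD (n i)) * (Tup (ZMod p) n (T p φ)).ncard) :=
                Nat.mul_le_mul_left _ h5
            _ = (∏ i, DD (n i)) * ((Tup (ZMod p) n (T p φ)).ncard * p ^ Fintype.card ι) := by ring
            _ ≤ (∏ i, DD (n i)) *
                ({ρ : ι → ZMod p | aff φ A B ρ ∈ Tup (ZMod p) n (T p φ)}.ncard *
                  p ^ Fintype.card (Σ i, Fin (n i))) := Nat.mul_le_mul_left _ h6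
            _ ≤ (∏ i, DD (n i)) * ({ρ : ι → ZMod p | ∃ φ : 𝓞 L →+* ZMod p, φ c₀ ≠ 0 ∧
                  aff φ A B ρ ∈ Tup (ZMod p) n (T p φ)}.ncard *
                  p ^ Fintype.card (Σ i, Fin (n i))) :=
                Nat.mul_le_mul_left _ (Nat.mul_le_mul_right _ h7)
            _ = _ := by ring
        rw [one_div, inv_mul_le_iff₀ hDD']
        exact_mod_cast h8
      · rw [if_neg hne, zero_mul]
        positivity)
  refine Clo.mono ?_ h1
  intro c hc p hp hlt hin
  obtain ⟨φ, h4, h5⟩ := hin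
  exact hc ⟨p, hp, lt_of_le_of_lt (le_max_left _ _) hlt, φ, h4, h5⟩

end

section tr
variable {F F' : Type} [CommRing F] [CommRing F']

theorem irr_map (e : F ≃+* F') {f : F[X]} (h : Irreducible f) :
    Irreducible (f.map (e : F →+* F')) := by
  have h1 := (MulEquiv.irreducible_iff (Polynomial.mapEquiv e)).2 h
  exact h1

theorem ev_map (e : F ≃+* F') {N : ℕ} {t : Fin 3} {y : Fin (N + 1) → F} (hy : y ∈ Ev F N t) :
    (fun j => e (y j)) ∈ Ev F' N t := by
  have hb : Pool.Agent.Y160.T3.bF (fun j => e (y j)) =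
      (Pool.Agent.Y160.T3.bF y).map (e : F →+* F') := by
    unfold Pool.Agent.Y160.T3.bF
    rw [Polynomial.map_sum]
    refine Finset.sum_congr rfl fun j _ => ?_
    rw [Polynomial.map_mul, map_C, Polynomial.map_pow, map_X]
    rfl
  unfold Ev at hy ⊢
  split_ifs at hy ⊢
  · obtain ⟨h1, h2⟩ := hy
    refine ⟨?_, ?_⟩
    · rw [hb]
      exact irr_map e h1
    · rw [hb, natDegree_map_eq_of_injective e.injective]
      exact h2
  · obtain ⟨h1, π, h2, h3, h4⟩ := hy
    refine ⟨?_, π.map (e : F →+* F'), irr_map e h2, ?_, ?_⟩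
    · rw [hb, natDegree_map_eq_of_injective e.injective]
      exact h1
    · rw [natDegree_map_eq_of_injective e.injective]
      exact h3
    · rw [hb]
      exact Polynomial.map_dvd _ h4
  · obtain ⟨d, π, S, hd, hπ, hirr, hdeg, hS, h⟩ := hy
    refine ⟨e d, π.map (e : F →+* F'), S.map e.toEquiv.toEmbedding, ?_, hπ.map _, irr_map e hirr,
      ?_, ?_, ?_⟩
    · exact (map_ne_zero_iff e e.injective).2 hd
    · rw [natDegree_map_eq_of_injective e.injective]
      exact hdeg
    · rw [Finset.card_map]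
      exact hS
    · rw [hb, h, Polynomial.map_mul, Polynomial.map_mul, map_C, Polynomial.map_prod,
        Finset.prod_map]
      refine congrArg₂ _ rfl (Finset.prod_congr rfl fun c _ => ?_)
      rw [Polynomial.map_sub, map_X, map_C]
      rfl

theorem mv_map (e : F ≃+* F') {N : ℕ} {t : Fin 3} {z : Fin N → F} (hz : z ∈ Mv F N t) :
    (fun j => e (z j)) ∈ Mv F' N t := by
  have h1 := ev_map e (show mv z ∈ Ev F N t from hz)
  have h2 : (fun j => e (mv z j)) = mv (fun j => e (z j)) := by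
    funext j
    unfold mv
    refine Fin.lastCases ?_ (fun j => ?_) j
    · rw [Fin.snoc_last, Fin.snoc_last, map_one]
    · rw [Fin.snoc_castSucc, Fin.snoc_castSucc]
  change mv (fun j => e (z j)) ∈ Ev F' N t
  rw [← h2]
  exact h1

theorem tup_map (e : F ≃+* F') {ι : Type} {n : ι → ℕ} {T : ι → Option (Fin 3)}
    {z : (Σ i, Fin (n i)) → F} (hz : z ∈ Tup F n T) : (fun j => e (z j)) ∈ Tup F' n T :=
  fun i t h => mv_map e (hz i t h)

end tr

end Pool.Agent.P8H32.HQ
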