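import Pool.Agent.P8H32.HQ.Link
import Pool.Agent.Results.MP_640417_ag.HyperellipticEveryPrime

/-!
# Good sequences of integral vectors: Tate classes at every prime number for the hyperelliptic Jacobians
# in all affine families over all number fields (helper32)
-/

set_option autoImplicit false
set_option linter.all false

open NumberField Polynomial Filter Topology
open scoped Classical

namespace Pool.Agent.P8H32.HQ

open Pool.Agent.N24.RW Pool.Agent.N24.KM
open Pool.Agent.N171 (HypP)
open Pool.Agent.Results.MP_640417_ag.HyperellipticEveryPrime (AbsoluteGaloisGroup IsLattice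
  EveryPrime poly everyPrime_of_gd)

/-- The tuple of polynomials of an affine family at the integral vector `c`: the polynomial `i` is
`X ^ n i + ∑ j < n i, (∑ l, A (i, j) l * c l + B (i, j)) X ^ j`. -/
noncomputable def member {L : Type} [Field L] {ι : Type} [Fintype ι] {m : ℕ} (n : Fin m → ℕ)
    (A : (Σ i, Fin (n i)) → ι → 𝓞 L) (B : (Σ i, Fin (n i)) → 𝓞 L) (c : ι → ℤ) : Fin m → L[X] :=
  poly (fun j => ∑ l, A j l * (c l : 𝓞 L) + B j)

/-- Outside of the set `E` of indices the vectors `c_0, c_1, …` are good: for ALL number fields `L`, all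
nonempty tuples of odd degrees `n i ≥ 7`, all affine families over the ring of integers of `L` of tuples of
monic polynomials of these degrees whose linear parts are linearly independent (`FullRank`), and all
lattices `τ`, the statement `EveryPrime` is true for the tuple `member n A B (c t)` and `τ`, for all but
finitely many `t ∉ E`. -/
def GoodOutside {ι : Type} [Fintype ι] (E : Set ℕ) (c : ℕ → ι → ℤ) : Prop :=
  ∀ (L : Type) [Field L] [NumberField L] (m : ℕ) (n : Fin m → ℕ), 0 < m →
    (∀ i, 7 ≤ n i) → (∀ i, Odd (n i)) →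
    ∀ (A : (Σ i, Fin (n i)) → ι → 𝓞 L) (B : (Σ i, Fin (n i)) → 𝓞 L), FullRank A →
    ∀ (d : ℕ) (τ : AbsoluteGaloisGroup L →* Matrix (Fin d) (Fin d) ℚ_[2]), IsLattice τ →
      {t : ℕ | t ∉ E ∧ ¬ EveryPrime (member n A B (c t)) τ}.Finite

/-- **Good sequences** of integral vectors `c_0, c_1, …`: there is ONE set `E` of indices of natural
density zero, such that they are good outside of `E`: for ALL number fields, affine families of full rank
and lattices (`GoodOutside`). -/
def GoodSequence {ι : Type} [Fintype ι] (c : ℕ → ι → ℤ) : Prop :=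
  ∃ E : Set ℕ,
    Tendsto (fun N : ℕ => (({t : ℕ | t < N ∧ t ∈ E}.ncard : ℕ) : ℝ) / (N : ℝ)) atTop (𝓝 0) ∧
    GoodOutside E c

theorem goodOutside_of {ι : Type} [Fintype ι] {c : ℕ → ι → ℤ} {E : Set ℕ}
    (hall : ∀ x : Dt ι, {t : ℕ | t ∉ E ∧ c t ∈ BadD x}.Finite) : GoodOutside E c := by
  intro L _ _ m n hm h7 ho A B hA d τ hlat
  haveI : Nonempty (Fin m) := ⟨⟨0, hm⟩⟩
  obtain ⟨U, hU1, hU2⟩ := Pool.Agent.N197.Htj.exists_U (k := L) (L := L)
    (F := AlgebraicClosure L) two_ne_zero n (Pool.Agent.N197.AP.matRep τ)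
    ⟨d, Pi.basisFun ℚ_[2] (Fin d), fun s => Pool.Agent.N197.AP.trivMod_int τ hlat.2 s⟩
  obtain ⟨UR, hUR, hU⟩ := Pool.Agent.N197.Htj.exists_UR (𝓞 L) L U
  refine (master hall L m n A B (fun i => le_trans (by norm_num) (h7 i)) hA UR hUR).subset ?_
  rintro t ⟨ht, hno⟩
  refine ⟨ht, fun hdat => hno ?_⟩
  have hgd := Pool.Agent.N197.AP.LIM.gd_of_dat (R := 𝓞 L) (k := L) two_ne_zero h7 ho hU hdat
  obtain ⟨h3, h4⟩ := hgd L (AlgebraicClosure L) (hU1 _) (Fin d → ℚ_[2])
    (Pool.Agent.N197.AP.matRep τ) hU2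
  have key : ∀ g : Fin m → L[X], g = member n A B (c t) → (∀ i, HypP (g i)) →
      Pool.Agent.N197.AP.GD g (Pool.Agent.N197.AP.matRep τ) →
      EveryPrime (member n A B (c t)) τ := by
    rintro g rfl h5 h6
    exact everyPrime_of_gd _ h5 τ hlat.1 h6
  refine key _ ?_ h3 h4
  funext i
  rw [Algebra.algebraMap_self, Polynomial.map_id]
  beta_reduce
  rw [← Pool.Agent.N197.Htj.poly_eq]
  rfl

theorem goodSequence_of {ι : Type} [Fintype ι] {c : ℕ → ι → ℤ}
    (hc : ∀ x : Dt ι, Rarely c (BadD x)) : GoodSequence c := by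
  obtain ⟨E, hE, hall⟩ := Pool.Agent.N18.KM.one_set c _ hc
  exact ⟨E, hE, goodOutside_of hall⟩

end Pool.Agent.P8H32.HQ
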