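import Pool.Agent.P8H32.HQ.Seq
import Pool.Agent.N924.TH.Null

/-!
# Uniformly distributed sequences of integers: one exceptional set for the hyperelliptic Jacobians in all
# affine families over all number fields (helper32)
-/

set_option autoImplicit false
set_option linter.all false

namespace Pool.Agent.P8H32.HQ

open Finset Filter Topology
open Pool.Agent.N24.RW (ProNull)
open Pool.Agent.N924.TH (UD null_union)
open Pool.Agent.N666.TM (NullIn diag)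

/-- Sequences of integers which are uniformly distributed modulo all `q` along `S N` are rarely in a
pronull set. -/
theorem null_of_ud {S : ℕ → Finset ℕ} {z : ℕ → ℕ → ℤ} (h : UD S z) {r : ℕ}
    {B : Set (Fin r → ℤ)} (hB : ProNull B) :
    NullIn S {t : ℕ | (fun l : Fin r => z l t) ∈ B} := by
  classical
  intro ε hε
  obtain ⟨q, hq, -, hc⟩ := hB 1 one_pos (ε / 2) (by positivity)
  rw [Fintype.card_fin] at hc
  have : NeZero q := ⟨hq.ne'⟩
  have hq0 : (0 : ℝ) < q := by exact_mod_cast hq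
  have hqr : (0 : ℝ) < (q : ℝ) ^ r := by positivity
  obtain ⟨I, hI⟩ : ∃ I : Set (Fin r → ZMod q),
      I = (fun (c : Fin r → ℤ) (i : Fin r) => (c i : ZMod q)) '' B := ⟨_, rfl⟩
  rw [← hI] at hc
  have hIf : I.Finite := Set.toFinite I
  have h1 : ∀ ρ : Fin r → ZMod q, ∀ᶠ N in atTop,
      ({t : ℕ | t ∈ S N ∧ ∀ i : Fin r, (q : ℤ) ∣ z i t - ((ρ i).val : ℤ)}.ncard : ℝ) /
        (S N).card < 2 / (q : ℝ) ^ r := by
    intro ρ
    have h2 := h r (fun i => (i : ℕ)) Fin.val_injective q hq (fun i => ((ρ i).val : ℤ))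
    exact h2.eventually_lt_const (by rw [div_lt_div_iff_of_pos_right hqr]; norm_num)
  obtain ⟨N₀, hN₀⟩ := eventually_atTop.1 (eventually_all.2 h1)
  refine ⟨N₀, fun N hN => ?_⟩
  have h3 : ∀ ρ : Fin r → ZMod q,
      (((S N).filter fun t => ∀ i : Fin r, (q : ℤ) ∣ z i t - ((ρ i).val : ℤ)).card : ℝ) ≤
        2 / (q : ℝ) ^ r * (S N).card := by
    intro ρ
    rcases Nat.eq_zero_or_pos (S N).card with h0 | h0
    · rw [Finset.card_eq_zero] at h0
      rw [h0]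
      simp
    · have h4 := hN₀ N hN ρ
      rw [div_lt_iff₀ (by exact_mod_cast h0)] at h4
      refine le_trans (le_of_eq ?_) h4.le
      rw [← Set.ncard_coe_finset]
      congr 2
      ext t
      simp
  have hsub : {t : ℕ | t ∈ S N ∧ t ∈ {t : ℕ | (fun l : Fin r => z l t) ∈ B}} ⊆
      ↑(hIf.toFinset.biUnion fun ρ =>
        (S N).filter fun t => ∀ i : Fin r, (q : ℤ) ∣ z i t - ((ρ i).val : ℤ)) := by
    rintro t ⟨ht, htB⟩
    rw [Finset.mem_coe, Finset.mem_biUnion]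
    refine ⟨fun i => (z i t : ZMod q), ?_, Finset.mem_filter.2 ⟨ht, fun i => ?_⟩⟩
    · rw [Set.Finite.mem_toFinset, hI]
      exact ⟨_, htB, rfl⟩
    · rw [← ZMod.intCast_eq_intCast_iff_dvd_sub]
      rw [Int.cast_natCast, ZMod.natCast_val, ZMod.cast_id', id]
  have h5 := (Set.ncard_le_ncard hsub (Finset.finite_toSet _))
  rw [Set.ncard_coe_finset] at h5
  have h6 : ({t : ℕ | t ∈ S N ∧ t ∈ {t : ℕ | (fun l : Fin r => z l t) ∈ B}}.ncard : ℝ) ≤
      ∑ ρ ∈ hIf.toFinset,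
        (((S N).filter fun t => ∀ i : Fin r, (q : ℤ) ∣ z i t - ((ρ i).val : ℤ)).card : ℝ) := by
    exact_mod_cast h5.trans Finset.card_biUnion_le
  refine h6.trans ((Finset.sum_le_card_nsmul _ _ _ fun ρ _ => h3 ρ).trans ?_)
  have h7 : (hIf.toFinset.card : ℝ) ≤ ε / 2 * (q : ℝ) ^ r := by
    rw [← Set.ncard_eq_toFinset_card I hIf]
    exact hc
  rw [nsmul_eq_mul]
  have h8 : (0 : ℝ) ≤ 2 / (q : ℝ) ^ r * (S N).card := by positivity
  calc (hIf.toFinset.card : ℝ) * (2 / (q : ℝ) ^ r * (S N).card)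
      ≤ (ε / 2 * (q : ℝ) ^ r) * (2 / (q : ℝ) ^ r * (S N).card) :=
        mul_le_mul_of_nonneg_right h7 h8
    _ = ε * (S N).card := by
        field_simp

/-- **One exceptional set** for countably many pronull sets of vectors of all lengths. -/
theorem thin_one {κ : Type} [Countable κ] (ar : κ → ℕ) (B : ∀ x : κ, Set (Fin (ar x) → ℤ))
    (hB : ∀ x, ProNull (B x)) {S₁ S₂ : ℕ → Finset ℕ} (hS₁ : ∀ N, S₁ N ⊆ Ioc N (2 * N))
    (hS₂ : ∀ N, S₂ N ⊆ Ioc N (2 * N)) {z : ℕ → ℕ → ℤ} (h₁ : UD S₁ z) (h₂ : UD S₂ z) :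
    ∃ E : Set ℕ, NullIn S₁ E ∧ NullIn S₂ E ∧
      ∀ x, {t : ℕ | t ∉ E ∧ (fun l : Fin (ar x) => z l t) ∈ B x}.Finite := by
  classical
  obtain ⟨f, hf⟩ := exists_injective_nat κ
  let C : κ → Set ℕ := fun x => {t : ℕ | (fun l : Fin (ar x) => z l t) ∈ B x}
  have hfin : ∀ k : ℕ, {x : κ | f x ≤ k}.Finite := fun k =>
    Set.Finite.preimage hf.injOn (Set.finite_le_nat k)
  let E : ℕ → Set ℕ := fun k => {t | ∃ x ∈ (hfin k).toFinset, t ∈ C x}
  have hmono : Monotone E := by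
    rintro k k' hkk t ⟨x, hx, ht⟩
    refine ⟨x, ?_, ht⟩
    rw [Set.Finite.mem_toFinset] at hx ⊢
    exact le_trans hx hkk
  obtain ⟨E', e1, e2, e3⟩ := diag hmono hS₁ hS₂
    (fun k => null_union _ _ fun x _ => null_of_ud h₁ (hB x))
    (fun k => null_union _ _ fun x _ => null_of_ud h₂ (hB x))
  refine ⟨E', e1, e2, fun x => (e3 (f x)).subset ?_⟩
  rintro t ⟨ht, hbad⟩
  refine ⟨⟨x, ?_, hbad⟩, ht⟩
  rw [Set.Finite.mem_toFinset]
  exact (le_refl (f x) : f x ≤ f x)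

/-- **One exceptional set** for all number fields, affine families and lattices. -/
theorem thin_good {S₁ S₂ : ℕ → Finset ℕ} (hS₁ : ∀ N, S₁ N ⊆ Ioc N (2 * N))
    (hS₂ : ∀ N, S₂ N ⊆ Ioc N (2 * N)) {z : ℕ → ℕ → ℤ} (h₁ : UD S₁ z) (h₂ : UD S₂ z) :
    ∃ E : Set ℕ, NullIn S₁ E ∧ NullIn S₂ E ∧
      ∀ r : ℕ, GoodOutside E (fun t (l : Fin r) => z l t) := by
  obtain ⟨E, e1, e2, e3⟩ := thin_one (κ := Σ r : ℕ, Dt (Fin r)) (fun x => x.1)
    (fun x => BadD x.2) (fun x => badD_null x.2) hS₁ hS₂ h₁ h₂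
  exact ⟨E, e1, e2, fun r => goodOutside_of fun x => e3 ⟨r, x⟩⟩

end Pool.Agent.P8H32.HQ
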